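import Pool.Agent.Lib.H81E.C3

/-!
# H81E (MP_443e5f, candidate T, module C), part 4: Type I pieces
-/

namespace Pool.Agent.H81E

open Finset Pool.Agent.H44W

/-- The indicator of `{q b : B₁ ≤ b < B₂}`. -/
theorem Rep.prog (n : ℕ) (hn : 1 ≤ n) (q : ℕ) (hq : 0 < q) (B₁ B₂ : ℕ) :
    Rep n (3 + Real.log n) (fun m => if (q : ℤ) ∣ m ∧ ((q * B₁ : ℕ) : ℤ) ≤ m ∧ m < ((q * B₂ : ℕ) : ℤ) then 1 else 0) := by
  have h := (Rep.dvd n q hq).mul (Rep.interval n hn ((q * B₁ : ℕ) : ℤ) ((q * B₂ : ℕ) : ℤ))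
  rw [one_mul] at h
  refine h.congr fun m _ _ => ?_
  by_cases h1 : (q : ℤ) ∣ m
  · by_cases h2 : ((q * B₁ : ℕ) : ℤ) ≤ m ∧ m < ((q * B₂ : ℕ) : ℤ)
    · rw [if_pos ⟨h1, h2⟩, if_pos h1, if_pos h2, mul_one]
    · rw [if_neg fun h3 => h2 h3.2, if_neg h2, mul_zero]
  · rw [if_neg fun h3 => h1 h3.1, if_neg h1, zero_mul]

/-- The Type I piece as a sum of indicators of progressions. -/
theorem typeI_eq (R : ℕ) (ga : ℕ → ℂ) (hR : ∀ q, ga q ≠ 0 → q ≤ R) (B₁ B₂ : ℕ) (m : ℤ) (hm : 1 ≤ m) :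
    ∑ x ∈ m.toNat.divisorsAntidiagonal, ga x.1 * (if B₁ ≤ x.2 ∧ x.2 < B₂ then 1 else 0) =
      ∑ q ∈ Icc 1 R, ga q * (if (q : ℤ) ∣ m ∧ ((q * B₁ : ℕ) : ℤ) ≤ m ∧ m < ((q * B₂ : ℕ) : ℤ) then 1 else 0) := by
  obtain ⟨k, rfl⟩ : ∃ k : ℕ, m = k := ⟨m.toNat, by omega⟩
  have hk : 0 < k := by omega
  rw [Int.toNat_natCast, Nat.sum_divisorsAntidiagonal (fun a b => ga a * (if B₁ ≤ b ∧ b < B₂ then (1 : ℂ) else 0))]
  have h1 : ∑ q ∈ Icc 1 R, ga q * (if (q : ℤ) ∣ (k : ℤ) ∧ ((q * B₁ : ℕ) : ℤ) ≤ (k : ℤ) ∧ (k : ℤ) < ((q * B₂ : ℕ) : ℤ) then (1 : ℂ) else 0) =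
      ∑ q ∈ (Icc 1 R).filter (fun q => q ∣ k), ga q * (if B₁ ≤ k / q ∧ k / q < B₂ then (1 : ℂ) else 0) := by
    rw [sum_filter]
    refine sum_congr rfl fun q hq => ?_
    rw [mem_Icc] at hq
    by_cases h2 : q ∣ k
    · rw [if_pos h2]
      congr 1
      obtain ⟨b, rfl⟩ := h2
      have hq0 : 0 < q := by omega
      rw [Nat.mul_div_cancel_left b hq0]
      by_cases h3 : B₁ ≤ b ∧ b < B₂
      · rw [if_pos h3, if_pos]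
        refine ⟨?_, ?_, ?_⟩
        · exact_mod_cast Dvd.intro b rfl
        · exact_mod_cast Nat.mul_le_mul_left q h3.1
        · exact_mod_cast Nat.mul_lt_mul_of_pos_left h3.2 hq0
      · rw [if_neg h3, if_neg]
        intro h4
        apply h3
        refine ⟨?_, ?_⟩
        · exact Nat.le_of_mul_le_mul_left (by exact_mod_cast h4.2.1) hq0
        · exact Nat.lt_of_mul_lt_mul_left (a := q) (by exact_mod_cast h4.2.2)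
    · rw [if_neg h2, if_neg, mul_zero]
      intro h3
      exact h2 (by exact_mod_cast h3.1)
  rw [h1]
  symm
  refine sum_subset ?_ ?_
  · intro q hq
    rw [mem_filter] at hq
    exact Nat.mem_divisors.2 ⟨hq.2, hk.ne'⟩
  · intro q hq hq2
    rw [Nat.mem_divisors] at hq
    by_cases h2 : ga q = 0
    · rw [h2, zero_mul]
    · exfalso
      apply hq2
      rw [mem_filter, mem_Icc]
      exact ⟨⟨Nat.pos_of_dvd_of_pos hq.1 hk, hR q h2⟩, hq.1⟩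

/-- Type I pieces have small Fourier norm. -/
theorem Rep.typeI (n : ℕ) (hn : 1 ≤ n) (R : ℕ) (ga : ℕ → ℂ) (hga : ∀ q, ‖ga q‖ ≤ 1) (hR : ∀ q, ga q ≠ 0 → q ≤ R) (B₁ B₂ : ℕ) :
    Rep n (R * (3 + Real.log n)) (fun m => ∑ x ∈ m.toNat.divisorsAntidiagonal, ga x.1 * (if B₁ ≤ x.2 ∧ x.2 < B₂ then 1 else 0)) := by
  have hl : 0 ≤ 3 + Real.log n := (Rep.interval n hn 0 0).nonneg
  have h := Rep.sum (n := n) (Icc 1 R) (fun q => ‖ga q‖ * (3 + Real.log n))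
    (fun q m => ga q * (if (q : ℤ) ∣ m ∧ ((q * B₁ : ℕ) : ℤ) ≤ m ∧ m < ((q * B₂ : ℕ) : ℤ) then 1 else 0))
    fun q hq => (Rep.prog n hn q (by rw [mem_Icc] at hq; omega) B₁ B₂).smul (ga q)
  refine (h.congr fun m hm _ => typeI_eq R ga hR B₁ B₂ m (by omega)).mono ?_
  refine (sum_le_sum (g := fun _ => 3 + Real.log n) fun q _ => ?_).trans ?_
  · exact mul_le_of_le_one_left hl (hga q)
  · rw [sum_const, Nat.card_Icc, Nat.add_sub_cancel, nsmul_eq_mul]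

/-- Module C: Type I pieces are controlled by the exponential sums of `g`. -/
theorem type_one (n : ℕ) (hn : 1 ≤ n) (R : ℕ) (ga : ℕ → ℂ) (hga : ∀ q, ‖ga q‖ ≤ 1) (hR : ∀ q, ga q ≠ 0 → q ≤ R) (B₁ B₂ : ℕ)
    (W f g : ℤ → ℂ) (hW : ∀ x, ‖W x‖ ≤ 1) (hf : ∀ x, ‖f x‖ ≤ 1) :
    ∃ th : ℝ, ‖TF n (fun m => ∑ x ∈ m.toNat.divisorsAntidiagonal, ga x.1 * (if B₁ ≤ x.2 ∧ x.2 < B₂ then 1 else 0)) W f g‖ ≤
      6 * R * (1 + Real.log n) * n * ‖∑ y ∈ Icc (1 : ℤ) n, g y * ee (th * y)‖ := by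
  obtain ⟨th, h⟩ := (Rep.typeI n hn R ga hga hR B₁ B₂).TF_le W f g hW hf
  refine ⟨th, h.trans ?_⟩
  have hlog : 0 ≤ Real.log n := Real.log_natCast_nonneg n
  have h0 : 0 ≤ (R : ℝ) * n * ‖∑ y ∈ Icc (1 : ℤ) n, g y * ee (th * y)‖ := by positivity
  calc (R : ℝ) * (3 + Real.log n) * (2 * n * ‖∑ y ∈ Icc (1 : ℤ) n, g y * ee (th * y)‖) =
        (6 + 2 * Real.log n) * ((R : ℝ) * n * ‖∑ y ∈ Icc (1 : ℤ) n, g y * ee (th * y)‖) := by ring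
    _ ≤ (6 + 6 * Real.log n) * ((R : ℝ) * n * ‖∑ y ∈ Icc (1 : ℤ) n, g y * ee (th * y)‖) := mul_le_mul_of_nonneg_right (by linarith) h0
    _ = _ := by ring

/-- The same with real coefficients, exactly in the form of `H81A.H1`. -/
theorem type_one_real (n : ℕ) (hn : 1 ≤ n) (R : ℕ) (ga : ℕ → ℝ) (hga : ∀ q, |ga q| ≤ 1) (hR : ∀ q, ga q ≠ 0 → q ≤ R) (B₁ B₂ : ℕ)
    (W f g : ℤ → ℂ) (hW : ∀ x, ‖W x‖ ≤ 1) (hf : ∀ x, ‖f x‖ ≤ 1) :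
    ∃ th : ℝ, ‖TF n (fun m => ((∑ x ∈ m.toNat.divisorsAntidiagonal, ga x.1 * (if B₁ ≤ x.2 ∧ x.2 < B₂ then 1 else 0) : ℝ) : ℂ)) W f g‖ ≤
      6 * R * (1 + Real.log n) * n * ‖∑ y ∈ Icc (1 : ℤ) n, g y * ee (th * y)‖ := by
  obtain ⟨th, h⟩ := type_one n hn R (fun q => (ga q : ℂ)) (fun q => by rw [Complex.norm_real]; exact hga q)
    (fun q hq => hR q fun h0 => hq (by rw [h0, Complex.ofReal_zero])) B₁ B₂ W f g hW hf
  refine ⟨th, ?_⟩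
  have h2 : TF n (fun m => ((∑ x ∈ m.toNat.divisorsAntidiagonal, ga x.1 * (if B₁ ≤ x.2 ∧ x.2 < B₂ then 1 else 0) : ℝ) : ℂ)) W f g =
      TF n (fun m => ∑ x ∈ m.toNat.divisorsAntidiagonal, (ga x.1 : ℂ) * (if B₁ ≤ x.2 ∧ x.2 < B₂ then 1 else 0)) W f g := by
    refine TF_congr n W f g fun m _ _ => ?_
    rw [Complex.ofReal_sum]
    refine sum_congr rfl fun x _ => ?_
    rw [Complex.ofReal_mul]
    congr 1
    split_ifs <;> simp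
  rw [h2]
  exact h

end Pool.Agent.H81E
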