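import Pool.Agent.Lib.H81E.C2

/-!
# H81E (MP_443e5f, candidate T, module C), part 3: the bilinear form `TF`, additive characters, Type I pieces
-/

namespace Pool.Agent.H81E

open Finset Pool.Agent.H44W

theorem TF_congr (n : ℕ) {F G : ℤ → ℂ} (W f g : ℤ → ℂ) (h : ∀ m : ℤ, 2 ≤ m → m ≤ 2 * n → F m = G m) : TF n F W f g = TF n G W f g := by
  unfold TF
  refine sum_congr rfl fun x hx => sum_congr rfl fun y hy => ?_
  rw [mem_Icc] at hx hy
  rw [h (x + y) (by omega) (by omega)]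

theorem TF_sum (n : ℕ) {ι : Type*} (s : Finset ι) (F : ι → ℤ → ℂ) (W f g : ℤ → ℂ) :
    TF n (fun m => ∑ i ∈ s, F i m) W f g = ∑ i ∈ s, TF n (F i) W f g := by
  unfold TF
  rw [sum_comm]
  have h1 : ∀ y ∈ Icc (1 : ℤ) n, ∑ x ∈ Icc (1 : ℤ) n, f x * g y * (∑ i ∈ s, F i (x + y)) * W (x - y) =
      ∑ i ∈ s, ∑ x ∈ Icc (1 : ℤ) n, f x * g y * F i (x + y) * W (x - y) := by
    intro y _
    rw [sum_comm]
    refine sum_congr rfl fun x _ => ?_
    rw [mul_sum, sum_mul]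
  rw [sum_congr rfl h1, sum_comm]
  refine sum_congr rfl fun i _ => ?_
  rw [sum_comm]

theorem TF_smul (n : ℕ) (c : ℂ) (F W f g : ℤ → ℂ) : TF n (fun m => c * F m) W f g = c * TF n F W f g := by
  unfold TF
  rw [mul_sum]
  refine sum_congr rfl fun x _ => ?_
  rw [mul_sum]
  refine sum_congr rfl fun y _ => ?_
  ring

theorem TF_ee (n : ℕ) (th : ℝ) (G W f g : ℤ → ℂ) :
    TF n (fun m => ee (th * m) * G m) W f g = TF n G W (fun x => f x * ee (th * x)) (fun y => g y * ee (th * y)) := by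
  unfold TF
  refine sum_congr rfl fun x _ => sum_congr rfl fun y _ => ?_
  dsimp only
  rw [show th * ((x + y : ℤ) : ℝ) = th * x + th * y by push_cast; ring, ee_add]
  ring

/-- A factor with small Fourier norm is absorbed by `f` and `g`. -/
theorem Rep.TF {n : ℕ} {A : ℝ} {F : ℤ → ℂ} (h : Rep n A F) (G W f g : ℤ → ℂ) :
    ∃ th : ℝ, ‖Pool.Agent.H44W.TF n (fun m => F m * G m) W f g‖ ≤
      A * ‖Pool.Agent.H44W.TF n G W (fun x => f x * Pool.Agent.H44W.ee (th * x)) (fun y => g y * Pool.Agent.H44W.ee (th * y))‖ := by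
  have hA := h.nonneg
  obtain ⟨J, c, al, h1, h2⟩ := h
  have h3 : Pool.Agent.H44W.TF n (fun m => F m * G m) W f g =
      ∑ j ∈ range J, c j * Pool.Agent.H44W.TF n G W (fun x => f x * Pool.Agent.H44W.ee (al j * x)) (fun y => g y * Pool.Agent.H44W.ee (al j * y)) := by
    rw [TF_congr n (G := fun m => ∑ j ∈ range J, c j * (Pool.Agent.H44W.ee (al j * m) * G m)), TF_sum]
    · refine sum_congr rfl fun j _ => ?_
      rw [TF_smul, TF_ee]
    · intro m hm1 hm2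
      rw [h2 m hm1 hm2, sum_mul]
      exact sum_congr rfl fun j _ => by ring
  rcases Nat.eq_zero_or_pos J with rfl | hJ
  · refine ⟨0, ?_⟩
    rw [h3, sum_range_zero, norm_zero]
    exact mul_nonneg hA (norm_nonneg _)
  · obtain ⟨j0, _, hj0⟩ := exists_max_image (range J) (fun j => ‖Pool.Agent.H44W.TF n G W (fun x => f x * Pool.Agent.H44W.ee (al j * x)) (fun y => g y * Pool.Agent.H44W.ee (al j * y))‖)
      ⟨0, mem_range.2 hJ⟩
    refine ⟨al j0, ?_⟩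
    rw [h3]
    refine (norm_sum_le _ _).trans ?_
    refine (sum_le_sum (g := fun j => ‖c j‖ * ‖Pool.Agent.H44W.TF n G W (fun x => f x * Pool.Agent.H44W.ee (al j0 * x)) (fun y => g y * Pool.Agent.H44W.ee (al j0 * y))‖) fun j hj => ?_).trans ?_
    · rw [norm_mul]
      exact mul_le_mul_of_nonneg_left (hj0 j hj) (norm_nonneg _)
    · rw [← sum_mul]
      exact mul_le_mul_of_nonneg_right h1 (norm_nonneg _)

/-- Parseval on the group `ℤ / M`. -/
theorem parseval (M : ℕ) (hM : 0 < M) (S : Finset ℤ) (hS : ∀ s ∈ S, ∀ t ∈ S, (M : ℤ) ∣ s - t → s = t) (a : ℤ → ℂ) :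
    ∑ k ∈ range M, ‖∑ s ∈ S, a s * ee ((k : ℝ) * s / M)‖ ^ 2 = M * ∑ s ∈ S, ‖a s‖ ^ 2 := by
  have h1 : ∀ k : ℕ, ((‖∑ s ∈ S, a s * ee ((k : ℝ) * s / M)‖ ^ 2 : ℝ) : ℂ) =
      ∑ s ∈ S, ∑ t ∈ S, a s * (starRingEnd ℂ) (a t) * ee ((k : ℝ) * ((s - t : ℤ) : ℝ) / M) := by
    intro k
    rw [Complex.ofReal_pow, ← Complex.mul_conj', map_sum, sum_mul_sum]
    refine sum_congr rfl fun s _ => sum_congr rfl fun t _ => ?_
    rw [map_mul, ← ee_neg, show (k : ℝ) * ((s - t : ℤ) : ℝ) / M = (k : ℝ) * s / M + -((k : ℝ) * t / M) by push_cast; ring, ee_add]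
    ring
  have h2 : ((∑ k ∈ range M, ‖∑ s ∈ S, a s * ee ((k : ℝ) * s / M)‖ ^ 2 : ℝ) : ℂ) = ((M * ∑ s ∈ S, ‖a s‖ ^ 2 : ℝ) : ℂ) := by
    rw [Complex.ofReal_sum, sum_congr rfl fun k _ => h1 k, sum_comm, sum_congr rfl fun s _ => sum_comm]
    rw [Complex.ofReal_mul, Complex.ofReal_sum, Complex.ofReal_natCast, mul_sum]
    refine sum_congr rfl fun s hs => ?_
    rw [Finset.sum_eq_single s]
    · rw [← mul_sum, ee_orth M hM, if_pos (by rw [sub_self]; exact dvd_zero _), Complex.mul_conj', Complex.ofReal_pow]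
      ring
    · intro t ht hts
      rw [← mul_sum, ee_orth M hM, if_neg, mul_zero]
      intro h
      exact hts (hS s hs t ht h).symm
    · intro h
      exact absurd hs h
  exact_mod_cast h2

/-- The form with kernel `1`. -/
theorem TF_one (n : ℕ) (W f g : ℤ → ℂ) (hW : ∀ x, ‖W x‖ ≤ 1) (hf : ∀ x, ‖f x‖ ≤ 1) :
    ∃ th : ℝ, ‖TF n (fun _ => 1) W f g‖ ≤ 2 * n * ‖∑ y ∈ Icc (1 : ℤ) n, g y * ee (th * y)‖ := by
  rcases Nat.eq_zero_or_pos n with rfl | hn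
  · refine ⟨0, ?_⟩
    simp [TF]
  set M : ℕ := 2 * n with hM
  have hM0 : 0 < M := by omega
  have hMr : (M : ℝ) ≠ 0 := by exact_mod_cast hM0.ne'
  have hMc : (M : ℂ) ≠ 0 := by exact_mod_cast hM0.ne'
  set w : ℕ → ℂ := fun k => (1 / (M : ℂ)) * ∑ v ∈ Ioo (-(n : ℤ)) n, W v * ee (-((k : ℝ) * v / M)) with hw
  set F : ℕ → ℂ := fun k => ∑ x ∈ Icc (1 : ℤ) n, f x * ee ((k : ℝ) * x / M) with hF
  set G : ℕ → ℂ := fun k => ∑ y ∈ Icc (1 : ℤ) n, g y * ee (-((k : ℝ) / M) * y) with hG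
  -- inversion
  have h1 : ∀ v0 ∈ Ioo (-(n : ℤ)) n, W v0 = ∑ k ∈ range M, w k * ee ((k : ℝ) * v0 / M) := by
    intro v0 hv0
    rw [mem_Ioo] at hv0
    have h2 : ∀ k ∈ range M, w k * ee ((k : ℝ) * v0 / M) = ∑ v ∈ Ioo (-(n : ℤ)) n, (1 / (M : ℂ)) * W v * ee ((k : ℝ) * ((v0 - v : ℤ) : ℝ) / M) := by
      intro k _
      rw [hw]
      dsimp only
      rw [mul_sum, sum_mul]
      refine sum_congr rfl fun v _ => ?_
      rw [show (k : ℝ) * ((v0 - v : ℤ) : ℝ) / M = -((k : ℝ) * v / M) + (k : ℝ) * v0 / M by push_cast; ring, ee_add]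
      ring
    rw [sum_congr rfl h2, sum_comm, Finset.sum_eq_single v0]
    · rw [← mul_sum, ee_orth M hM0, if_pos (by rw [sub_self]; exact dvd_zero _)]
      field_simp
    · intro v hv hvv
      rw [mem_Ioo] at hv
      rw [← mul_sum, ee_orth M hM0, if_neg, mul_zero]
      intro h
      apply hvv
      have h4 : v0 - v = 0 := Int.eq_zero_of_abs_lt_dvd h (by rw [abs_lt]; constructor <;> omega)
      omega
    · intro h
      exact absurd (mem_Ioo.2 hv0) h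
  have h2 : TF n (fun _ => 1) W f g = ∑ k ∈ range M, w k * F k * G k := by
    unfold TF
    have h3 : ∀ x ∈ Icc (1 : ℤ) n, ∀ y ∈ Icc (1 : ℤ) n, f x * g y * 1 * W (x - y) =
        ∑ k ∈ range M, w k * (f x * ee ((k : ℝ) * x / M)) * (g y * ee (-((k : ℝ) / M) * y)) := by
      intro x hx y hy
      rw [mem_Icc] at hx hy
      rw [h1 (x - y) (by rw [mem_Ioo]; omega), mul_sum]
      refine sum_congr rfl fun k _ => ?_
      rw [show (k : ℝ) * ((x - y : ℤ) : ℝ) / M = (k : ℝ) * x / M + -((k : ℝ) / M) * y by push_cast; ring, ee_add]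
      ring
    rw [sum_congr rfl fun x hx => sum_congr rfl fun y hy => h3 x hx y hy]
    rw [sum_congr rfl fun x _ => sum_comm, sum_comm]
    refine sum_congr rfl fun k _ => ?_
    rw [hF, hG]
    dsimp only
    rw [mul_assoc, sum_mul_sum, mul_sum]
    refine sum_congr rfl fun x _ => ?_
    rw [mul_sum]
    refine sum_congr rfl fun y _ => ?_
    ring
  have hwsq : ∑ k ∈ range M, ‖w k‖ ^ 2 ≤ 1 := by
    have h3 : ∀ k ∈ range M, ‖w k‖ ^ 2 = (1 / (M : ℝ)) ^ 2 * ‖∑ v ∈ Ioo (-(n : ℤ)) n, (starRingEnd ℂ) (W v) * ee ((k : ℝ) * v / M)‖ ^ 2 := by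
      intro k _
      rw [hw]
      dsimp only
      rw [norm_mul, mul_pow, norm_div, norm_one, Complex.norm_natCast, ← RCLike.norm_conj (∑ v ∈ Ioo (-(n : ℤ)) n, W v * ee (-((k : ℝ) * v / M))), map_sum]
      congr 3
      refine sum_congr rfl fun v _ => ?_
      rw [map_mul, ee_neg, Complex.conj_conj]
    rw [sum_congr rfl h3, ← mul_sum, parseval M hM0]
    · have h4 : ∑ v ∈ Ioo (-(n : ℤ)) n, ‖(starRingEnd ℂ) (W v)‖ ^ 2 ≤ M := by
        refine (sum_le_sum (g := fun _ => (1 : ℝ)) fun v _ => ?_).trans ?_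
        · rw [RCLike.norm_conj]
          exact pow_le_one₀ (norm_nonneg _) (hW v)
        · rw [sum_const, nsmul_eq_mul, mul_one, Int.card_Ioo]
          exact_mod_cast (by omega : ((n : ℤ) - -(n : ℤ) - 1).toNat ≤ M)
      calc (1 / (M : ℝ)) ^ 2 * (M * ∑ v ∈ Ioo (-(n : ℤ)) n, ‖(starRingEnd ℂ) (W v)‖ ^ 2) ≤ (1 / (M : ℝ)) ^ 2 * (M * M) := by gcongr
        _ = 1 := by field_simp
    · intro s hs t ht h
      rw [mem_Ioo] at hs ht
      have h4 : s - t = 0 := Int.eq_zero_of_abs_lt_dvd h (by rw [abs_lt]; constructor <;> omega)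
      omega
  have hFsq : ∑ k ∈ range M, ‖F k‖ ^ 2 ≤ (M : ℝ) * n := by
    rw [hF]
    dsimp only
    rw [parseval M hM0]
    · refine mul_le_mul_of_nonneg_left ?_ (Nat.cast_nonneg _)
      refine (sum_le_sum (g := fun _ => (1 : ℝ)) fun v _ => pow_le_one₀ (norm_nonneg _) (hf v)).trans ?_
      rw [sum_const, nsmul_eq_mul, mul_one, Int.card_Icc]
      exact_mod_cast (by omega : ((n : ℤ) + 1 - 1).toNat ≤ n)
    · intro s hs t ht h
      rw [mem_Icc] at hs ht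
      have h4 : s - t = 0 := Int.eq_zero_of_abs_lt_dvd h (by rw [abs_lt]; constructor <;> omega)
      omega
  have hCS : ∑ k ∈ range M, ‖w k‖ * ‖F k‖ ≤ 2 * n := by
    have h3 := sum_mul_sq_le_sq_mul_sq (range M) (fun k => ‖w k‖) (fun k => ‖F k‖)
    have h4 : (∑ k ∈ range M, ‖w k‖ * ‖F k‖) ^ 2 ≤ (2 * (n : ℝ)) ^ 2 := by
      refine h3.trans ((mul_le_mul hwsq hFsq (sum_nonneg fun k _ => by positivity) zero_le_one).trans ?_)
      rw [hM]
      push_cast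
      nlinarith [sq_nonneg (n : ℝ)]
    exact le_of_sq_le_sq h4 (by positivity)
  obtain ⟨k0, _, hk0⟩ := exists_max_image (range M) (fun k => ‖G k‖) ⟨0, mem_range.2 hM0⟩
  refine ⟨-((k0 : ℝ) / M), ?_⟩
  rw [h2]
  calc ‖∑ k ∈ range M, w k * F k * G k‖ ≤ ∑ k ∈ range M, ‖w k * F k * G k‖ := norm_sum_le _ _
    _ ≤ ∑ k ∈ range M, ‖w k‖ * ‖F k‖ * ‖G k0‖ := by
        refine sum_le_sum fun k hk => ?_
        rw [norm_mul, norm_mul]
        exact mul_le_mul_of_nonneg_left (hk0 k hk) (by positivity)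
    _ = (∑ k ∈ range M, ‖w k‖ * ‖F k‖) * ‖G k0‖ := by rw [sum_mul]
    _ ≤ 2 * n * ‖G k0‖ := mul_le_mul_of_nonneg_right hCS (norm_nonneg _)

/-- A kernel with small Fourier norm: `TF` is controlled by the exponential sums of `g`. -/
theorem Rep.TF_le {n : ℕ} {A : ℝ} {F : ℤ → ℂ} (h : Rep n A F) (W f g : ℤ → ℂ) (hW : ∀ x, ‖W x‖ ≤ 1) (hf : ∀ x, ‖f x‖ ≤ 1) :
    ∃ th : ℝ, ‖Pool.Agent.H44W.TF n F W f g‖ ≤ A * (2 * n * ‖∑ y ∈ Icc (1 : ℤ) n, g y * Pool.Agent.H44W.ee (th * y)‖) := by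
  obtain ⟨th1, h1⟩ := h.TF (fun _ => 1) W f g
  obtain ⟨th2, h2⟩ := TF_one n W (fun x => f x * Pool.Agent.H44W.ee (th1 * x)) (fun y => g y * Pool.Agent.H44W.ee (th1 * y)) hW
    (fun x => by rw [norm_mul, norm_ee, mul_one]; exact hf x)
  refine ⟨th1 + th2, ?_⟩
  have h3 : ∑ y ∈ Icc (1 : ℤ) n, g y * Pool.Agent.H44W.ee ((th1 + th2) * y) = ∑ y ∈ Icc (1 : ℤ) n, g y * Pool.Agent.H44W.ee (th1 * y) * Pool.Agent.H44W.ee (th2 * y) := by
    refine sum_congr rfl fun y _ => ?_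
    rw [add_mul, ee_add]
    ring
  rw [h3]
  have h4 : Pool.Agent.H44W.TF n F W f g = Pool.Agent.H44W.TF n (fun m => F m * 1) W f g := TF_congr n W f g fun m _ _ => (mul_one _).symm
  rw [h4]
  exact h1.trans (mul_le_mul_of_nonneg_left h2 h.nonneg)

end Pool.Agent.H81E
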