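import Pool.Agent.Lib.H44W.W0

/-!
# H81E (MP_443e5f, candidate T, module C), part 1: the algebra of functions with small Fourier norm

`Rep n A F`: on `[2, 2 n]` the function `F` is a combination of characters `m ↦ ee (α m)` with total coefficient mass `≤ A`.
-/

namespace Pool.Agent.H81E

open Finset Pool.Agent.H44W

theorem norm_ee (x : ℝ) : ‖ee x‖ = 1 := by
  unfold ee
  rw [show (2 * (Real.pi : ℂ) * (x : ℂ) * Complex.I) = ((2 * Real.pi * x : ℝ) : ℂ) * Complex.I by push_cast; ring, Complex.norm_exp_ofReal_mul_I]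

theorem ee_add (x y : ℝ) : ee (x + y) = ee x * ee y := by
  unfold ee
  rw [← Complex.exp_add]
  congr 1
  push_cast
  ring

theorem ee_zero : ee 0 = 1 := by
  unfold ee
  simp

theorem ee_int (m : ℤ) : ee m = 1 := by
  unfold ee
  rw [Complex.exp_eq_one_iff]
  exact ⟨m, by push_cast; ring⟩

theorem ee_neg (x : ℝ) : ee (-x) = (starRingEnd ℂ) (ee x) := by
  unfold ee
  rw [← Complex.exp_conj]
  congr 1
  simp only [map_mul, Complex.conj_I, Complex.conj_ofReal, map_ofNat]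
  push_cast
  ring

theorem ee_ne_one {x : ℝ} (h0 : 0 < x) (h1 : x < 1) : ee x ≠ 1 := by
  intro h
  unfold ee at h
  rw [Complex.exp_eq_one_iff] at h
  obtain ⟨k, hk⟩ := h
  have h2 : (x : ℂ) = (k : ℂ) := by
    have h3 : (2 * (Real.pi : ℂ) * Complex.I) ≠ 0 := Complex.two_pi_I_ne_zero
    apply mul_left_cancel₀ h3
    rw [show (2 * (Real.pi : ℂ) * Complex.I) * (x : ℂ) = 2 * (Real.pi : ℂ) * (x : ℂ) * Complex.I by ring, hk]
    ring
  have h3 : x = (k : ℝ) := by exact_mod_cast h2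
  rw [h3] at h0 h1
  have h4 : (0 : ℤ) < k := by exact_mod_cast h0
  have h5 : k < (1 : ℤ) := by exact_mod_cast h1
  omega

theorem ee_orth (l : ℕ) (hl : 0 < l) (m : ℤ) :
    ∑ k ∈ range l, ee ((k : ℝ) * m / l) = if (l : ℤ) ∣ m then (l : ℂ) else 0 := by
  have hl0 : (l : ℝ) ≠ 0 := by exact_mod_cast hl.ne'
  have hpow : ∀ k : ℕ, ee ((k : ℝ) * m / l) = ee ((m : ℝ) / l) ^ k := by
    intro k
    induction k with
    | zero => simp [ee_zero]
    | succ k ih => rw [pow_succ, ← ih, ← ee_add]; congr 1; push_cast; ring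
  split_ifs with h
  · obtain ⟨t, rfl⟩ := h
    have h1 : ee (((l * t : ℤ) : ℝ) / l) = 1 := by
      rw [show (((l * t : ℤ) : ℝ) / l) = (t : ℝ) by push_cast; field_simp, ee_int]
    simp_rw [hpow, h1, one_pow]
    simp
  · simp_rw [hpow]
    have h1 : ee ((m : ℝ) / l) ≠ 1 := by
      intro h1
      apply h
      unfold ee at h1
      rw [Complex.exp_eq_one_iff] at h1
      obtain ⟨k, hk⟩ := h1
      have h2 : (((m : ℝ) / l : ℝ) : ℂ) = (k : ℂ) := by
        apply mul_left_cancel₀ Complex.two_pi_I_ne_zero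
        rw [show (2 * (Real.pi : ℂ) * Complex.I) * (((m : ℝ) / l : ℝ) : ℂ) = 2 * (Real.pi : ℂ) * (((m : ℝ) / l : ℝ) : ℂ) * Complex.I by ring, hk]
        ring
      have h3 : (m : ℝ) / l = (k : ℝ) := by exact_mod_cast h2
      rw [div_eq_iff hl0] at h3
      exact ⟨k, by rw [mul_comm]; exact_mod_cast h3⟩
    rw [geom_sum_eq h1, ← hpow, show ((l : ℝ) * m / l) = (m : ℝ) by field_simp, ee_int, sub_self, zero_div]

/-- `F` is a combination of characters on `[2, 2 n]` with coefficient mass at most `A`. -/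
def Rep (n : ℕ) (A : ℝ) (F : ℤ → ℂ) : Prop :=
  ∃ (J : ℕ) (c : ℕ → ℂ) (al : ℕ → ℝ), (∑ j ∈ range J, ‖c j‖ ≤ A) ∧ ∀ m : ℤ, 2 ≤ m → m ≤ 2 * n → F m = ∑ j ∈ range J, c j * ee (al j * m)

theorem Rep.nonneg {n : ℕ} {A : ℝ} {F : ℤ → ℂ} (h : Rep n A F) : 0 ≤ A := by
  obtain ⟨J, c, al, h1, _⟩ := h
  exact (sum_nonneg fun j _ => norm_nonneg _).trans h1

theorem Rep.mono {n : ℕ} {A B : ℝ} {F : ℤ → ℂ} (h : Rep n A F) (hAB : A ≤ B) : Rep n B F := by
  obtain ⟨J, c, al, h1, h2⟩ := h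
  exact ⟨J, c, al, h1.trans hAB, h2⟩

theorem Rep.congr {n : ℕ} {A : ℝ} {F G : ℤ → ℂ} (h : Rep n A F) (hFG : ∀ m : ℤ, 2 ≤ m → m ≤ 2 * n → G m = F m) : Rep n A G := by
  obtain ⟨J, c, al, h1, h2⟩ := h
  exact ⟨J, c, al, h1, fun m h3 h4 => by rw [hFG m h3 h4, h2 m h3 h4]⟩

/-- A finite family indexed by any finite set. -/
theorem Rep.of_finset {n : ℕ} {A : ℝ} {F : ℤ → ℂ} {ι : Type*} (s : Finset ι) (c : ι → ℂ) (al : ι → ℝ) (h1 : ∑ j ∈ s, ‖c j‖ ≤ A)
    (h2 : ∀ m : ℤ, 2 ≤ m → m ≤ 2 * n → F m = ∑ j ∈ s, c j * ee (al j * m)) : Rep n A F := by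
  classical
  let e := s.equivFin
  have key : ∀ {M : Type} [AddCommMonoid M] (φ : ι → M), ∑ j ∈ s, φ j = ∑ k ∈ range s.card, if h : k < s.card then φ (e.symm ⟨k, h⟩) else 0 := by
    intro M _ φ
    rw [← Finset.sum_coe_sort s, ← Equiv.sum_comp e.symm, Finset.sum_fin_eq_sum_range]
  refine ⟨s.card, fun k => if h : k < s.card then c (e.symm ⟨k, h⟩) else 0, fun k => if h : k < s.card then al (e.symm ⟨k, h⟩) else 0, ?_, ?_⟩
  · rw [key] at h1
    refine le_of_eq_of_le (sum_congr rfl fun k _ => ?_) h1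
    dsimp only
    by_cases h : k < s.card
    · rw [dif_pos h, dif_pos h]
    · rw [dif_neg h, dif_neg h, norm_zero]
  · intro m h3 h4
    rw [h2 m h3 h4, key]
    refine sum_congr rfl fun k _ => ?_
    dsimp only
    by_cases h : k < s.card
    · rw [dif_pos h, dif_pos h, dif_pos h]
    · rw [dif_neg h, dif_neg h, zero_mul]

theorem Rep.zero (n : ℕ) : Rep n 0 (fun _ => 0) := ⟨0, fun _ => 0, fun _ => 0, by simp, fun m _ _ => by simp⟩

theorem Rep.ee (n : ℕ) (al : ℝ) : Rep n 1 (fun m => ee (al * m)) :=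
  ⟨1, fun _ => 1, fun _ => al, by simp, fun m _ _ => by simp⟩

theorem Rep.const (n : ℕ) (c : ℂ) : Rep n ‖c‖ (fun _ => c) :=
  ⟨1, fun _ => c, fun _ => 0, by simp, fun m _ _ => by simp [ee_zero]⟩

theorem Rep.add {n : ℕ} {A B : ℝ} {F G : ℤ → ℂ} (hF : Rep n A F) (hG : Rep n B G) : Rep n (A + B) (fun m => F m + G m) := by
  obtain ⟨J, c, al, h1, h2⟩ := hF
  obtain ⟨K, d, be, h3, h4⟩ := hG
  refine Rep.of_finset ((range J).disjSum (range K)) (Sum.elim c d) (Sum.elim al be) ?_ ?_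
  · rw [sum_disjSum]
    exact add_le_add h1 h3
  · intro m hm1 hm2
    rw [sum_disjSum, h2 m hm1 hm2, h4 m hm1 hm2]
    rfl

theorem Rep.smul {n : ℕ} {A : ℝ} {F : ℤ → ℂ} (c : ℂ) (hF : Rep n A F) : Rep n (‖c‖ * A) (fun m => c * F m) := by
  obtain ⟨J, d, al, h1, h2⟩ := hF
  refine ⟨J, fun j => c * d j, al, ?_, fun m hm1 hm2 => ?_⟩
  · simp_rw [norm_mul]
    rw [← mul_sum]
    exact mul_le_mul_of_nonneg_left h1 (norm_nonneg _)
  · dsimp only
    rw [h2 m hm1 hm2, mul_sum]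
    exact sum_congr rfl fun j _ => by ring

theorem Rep.mul {n : ℕ} {A B : ℝ} {F G : ℤ → ℂ} (hF : Rep n A F) (hG : Rep n B G) : Rep n (A * B) (fun m => F m * G m) := by
  have hA := hF.nonneg
  obtain ⟨J, c, al, h1, h2⟩ := hF
  obtain ⟨K, d, be, h3, h4⟩ := hG
  refine Rep.of_finset (range J ×ˢ range K) (fun p => c p.1 * d p.2) (fun p => al p.1 + be p.2) ?_ ?_
  · simp_rw [norm_mul]
    rw [sum_product]
    simp_rw [← mul_sum]
    rw [← sum_mul]
    exact mul_le_mul h1 h3 (sum_nonneg fun j _ => norm_nonneg _) hA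
  · intro m hm1 hm2
    rw [h2 m hm1 hm2, h4 m hm1 hm2, sum_mul_sum, sum_product]
    refine sum_congr rfl fun i _ => sum_congr rfl fun j _ => ?_
    rw [add_mul, ee_add]
    ring

theorem Rep.sum {n : ℕ} {ι : Type*} (s : Finset ι) (A : ι → ℝ) (F : ι → ℤ → ℂ) (h : ∀ i ∈ s, Rep n (A i) (F i)) :
    Rep n (∑ i ∈ s, A i) (fun m => ∑ i ∈ s, F i m) := by
  classical
  induction s using Finset.induction_on with
  | empty => simpa using Rep.zero n
  | insert i s hi ih =>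
    rw [sum_insert hi]
    refine ((h i (mem_insert_self i s)).add (ih fun j hj => h j (mem_insert_of_mem hj))).congr fun m _ _ => ?_
    rw [sum_insert hi]

/-- The indicator of the multiples of `q`. -/
theorem Rep.dvd (n q : ℕ) (hq : 0 < q) : Rep n 1 (fun m => if (q : ℤ) ∣ m then 1 else 0) := by
  have hq0 : (q : ℝ) ≠ 0 := by exact_mod_cast hq.ne'
  have hq1 : (q : ℂ) ≠ 0 := by exact_mod_cast hq.ne'
  refine ⟨q, fun _ => 1 / (q : ℂ), fun j => (j : ℝ) / q, ?_, fun m _ _ => ?_⟩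
  · rw [sum_const, card_range, nsmul_eq_mul, norm_div, norm_one, Complex.norm_natCast, mul_one_div_cancel hq0]
  · rw [← mul_sum]
    have h1 : ∑ j ∈ range q, Pool.Agent.H44W.ee ((j : ℝ) / q * m) = ∑ j ∈ range q, Pool.Agent.H44W.ee ((j : ℝ) * m / q) :=
      sum_congr rfl fun j _ => by rw [div_mul_eq_mul_div]
    rw [h1, ee_orth q hq m]
    dsimp only
    by_cases h : (q : ℤ) ∣ m
    · rw [if_pos h, if_pos h, one_div_mul_cancel hq1]
    · rw [if_neg h, if_neg h, mul_zero]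

end Pool.Agent.H81E
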