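import Pool.Agent.Lib.H81E.C1

/-!
# H81E (MP_443e5f, candidate T, module C), part 2: intervals and functions of bounded variation
-/

namespace Pool.Agent.H81E

open Finset Pool.Agent.H44W

theorem norm_ee_sub_one_ge {t : ℝ} (h0 : 0 < t) (h1 : t < 1) : 4 * min t (1 - t) ≤ ‖ee t - 1‖ := by
  have hpi := Real.pi_pos
  have h2 : ‖ee t - 1‖ = ‖2 * Real.sin (Real.pi * t)‖ := by
    have h3 := Complex.norm_exp_I_mul_ofReal_sub_one (2 * Real.pi * t)
    rw [show (2 * Real.pi * t) / 2 = Real.pi * t by ring] at h3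
    rw [← h3]
    unfold ee
    congr 3
    push_cast
    ring
  have h3 : 2 * min t (1 - t) ≤ Real.sin (Real.pi * t) := by
    rcases le_total t (1 / 2) with h | h
    · rw [min_eq_left (by linarith)]
      have h4 := Real.mul_le_sin (x := Real.pi * t) (by positivity) (by nlinarith)
      calc 2 * t = 2 / Real.pi * (Real.pi * t) := by field_simp
        _ ≤ _ := h4
    · rw [min_eq_right (by linarith)]
      have h4 := Real.mul_le_sin (x := Real.pi * (1 - t)) (mul_nonneg hpi.le (by linarith)) (by nlinarith)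
      have h5 : Real.sin (Real.pi * (1 - t)) = Real.sin (Real.pi * t) := by
        rw [show Real.pi * (1 - t) = Real.pi - Real.pi * t by ring, Real.sin_pi_sub]
      calc 2 * (1 - t) = 2 / Real.pi * (Real.pi * (1 - t)) := by field_simp
        _ ≤ _ := h4
        _ = _ := h5
  rw [h2, Real.norm_eq_abs]
  calc 4 * min t (1 - t) = 2 * (2 * min t (1 - t)) := by ring
    _ ≤ 2 * Real.sin (Real.pi * t) := by linarith
    _ ≤ _ := le_abs_self _

theorem ee_natmul (k : ℕ) (x : ℝ) : ee ((k : ℝ) * x) = ee x ^ k := by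
  induction k with
  | zero => simp [ee_zero]
  | succ k ih => rw [pow_succ, ← ih, ← ee_add]; congr 1; push_cast; ring

/-- The geometric sum over an interval. -/
theorem geom_le (a b : ℕ) (t : ℝ) (h : ee t ≠ 1) : ‖∑ s ∈ Ico a b, ee ((s : ℝ) * t)‖ ≤ 2 / ‖ee t - 1‖ := by
  have h0 : 0 < ‖ee t - 1‖ := norm_pos_iff.2 (sub_ne_zero.2 h)
  rcases le_or_gt b a with hab | hab
  · rw [Ico_eq_empty_of_le hab, sum_empty, norm_zero]
    positivity
  · simp_rw [ee_natmul]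
    rw [geom_sum_Ico h hab.le, norm_div]
    refine div_le_div_of_nonneg_right ?_ h0.le
    refine (norm_sub_le _ _).trans ?_
    rw [norm_pow, norm_pow, norm_ee, one_pow, one_pow]
    norm_num

/-- The Fourier coefficients of an interval. -/
theorem sum_coeff_le (n a b : ℕ) (hn : 1 ≤ n) (hb : b ≤ 2 * n + 1) :
    ∑ k ∈ range (2 * n + 1), ‖(1 / ((2 * n + 1 : ℕ) : ℂ)) * ∑ s ∈ Ico a b, ee (-((k : ℝ) * (s : ℝ) / (2 * n + 1 : ℕ)))‖ ≤ 3 + Real.log n := by
  set M : ℕ := 2 * n + 1 with hM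
  have hM0 : (0 : ℝ) < (M : ℝ) := by exact_mod_cast (by omega : 0 < M)
  rw [range_eq_Ico, sum_eq_sum_Ico_succ_bot (by omega : 0 < M)]
  have h1 : ‖(1 / (M : ℂ)) * ∑ s ∈ Ico a b, ee (-(((0 : ℕ) : ℝ) * (s : ℝ) / M))‖ ≤ 1 := by
    rw [norm_mul, norm_div, norm_one, Complex.norm_natCast]
    have h2 : ‖∑ s ∈ Ico a b, ee (-(((0 : ℕ) : ℝ) * (s : ℝ) / M))‖ ≤ M := by
      refine (norm_sum_le _ _).trans ?_
      simp_rw [norm_ee]
      rw [sum_const, Nat.card_Ico, nsmul_eq_mul, mul_one]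
      exact_mod_cast (by omega : b - a ≤ M)
    calc 1 / (M : ℝ) * _ ≤ 1 / (M : ℝ) * M := mul_le_mul_of_nonneg_left h2 (by positivity)
      _ = 1 := by field_simp
  have h2 : ∀ k ∈ Ico (0 + 1) M, ‖(1 / (M : ℂ)) * ∑ s ∈ Ico a b, ee (-((k : ℝ) * (s : ℝ) / M))‖ ≤ 1 / 2 * ((k : ℝ)⁻¹ + ((M - k : ℕ) : ℝ)⁻¹) := by
    intro k hk
    rw [mem_Ico] at hk
    have hk0 : (0 : ℝ) < k := by exact_mod_cast (by omega : 0 < k)
    have hkM : (k : ℝ) < M := by exact_mod_cast hk.2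
    have hMk : ((M - k : ℕ) : ℝ) = M - k := by rw [Nat.cast_sub hk.2.le]
    have ht0 : 0 < (k : ℝ) / M := by positivity
    have ht1 : (k : ℝ) / M < 1 := by rw [div_lt_one hM0]; exact hkM
    have h3 : ∑ s ∈ Ico a b, ee (-((k : ℝ) * (s : ℝ) / M)) = (starRingEnd ℂ) (∑ s ∈ Ico a b, ee ((s : ℝ) * ((k : ℝ) / M))) := by
      rw [map_sum]
      refine sum_congr rfl fun s _ => ?_
      rw [ee_neg]
      congr 2
      ring
    have h4 := geom_le a b ((k : ℝ) / M) (ee_ne_one ht0 ht1)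
    have h5 := norm_ee_sub_one_ge ht0 ht1
    have h6 : 0 < min ((k : ℝ) / M) (1 - (k : ℝ) / M) := lt_min ht0 (by linarith)
    rw [norm_mul, norm_div, norm_one, Complex.norm_natCast, h3, RCLike.norm_conj]
    calc 1 / (M : ℝ) * ‖∑ s ∈ Ico a b, ee ((s : ℝ) * ((k : ℝ) / M))‖ ≤ 1 / (M : ℝ) * (2 / (4 * min ((k : ℝ) / M) (1 - (k : ℝ) / M))) := by
          refine mul_le_mul_of_nonneg_left (h4.trans ?_) (by positivity)
          exact div_le_div_of_nonneg_left (by norm_num) (by positivity) h5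
      _ ≤ 1 / 2 * ((k : ℝ)⁻¹ + ((M - k : ℕ) : ℝ)⁻¹) := by
          rw [hMk]
          have hMk0 : 0 < (M : ℝ) - k := by linarith
          rcases le_total ((k : ℝ) / M) (1 - (k : ℝ) / M) with h | h
          · rw [min_eq_left h]
            have : 1 / (M : ℝ) * (2 / (4 * ((k : ℝ) / M))) = 1 / 2 * (k : ℝ)⁻¹ := by field_simp; ring
            rw [this]
            have : 0 < ((M : ℝ) - k)⁻¹ := inv_pos.2 hMk0
            linarith
          · rw [min_eq_right h]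
            have : 1 / (M : ℝ) * (2 / (4 * (1 - (k : ℝ) / M))) = 1 / 2 * ((M : ℝ) - k)⁻¹ := by
              rw [show (1 - (k : ℝ) / M) = (M - k) / M by field_simp]
              field_simp
              ring
            rw [this]
            have : 0 < (k : ℝ)⁻¹ := inv_pos.2 hk0
            linarith
  have h3 : ∑ k ∈ Ico (0 + 1) M, (1 / 2 * ((k : ℝ)⁻¹ + ((M - k : ℕ) : ℝ)⁻¹)) = ∑ k ∈ range (2 * n), ((k + 1 : ℕ) : ℝ)⁻¹ := by
    rw [← mul_sum, sum_add_distrib]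
    have h4 : ∑ k ∈ Ico (0 + 1) M, (k : ℝ)⁻¹ = ∑ k ∈ range (2 * n), ((k + 1 : ℕ) : ℝ)⁻¹ := by
      rw [sum_Ico_eq_sum_range, hM]
      refine sum_congr (by congr 1) fun k _ => ?_
      rw [show (0 + 1 + k) = k + 1 by ring]
    have h5 : ∑ k ∈ Ico (0 + 1) M, ((M - k : ℕ) : ℝ)⁻¹ = ∑ k ∈ range (2 * n), ((k + 1 : ℕ) : ℝ)⁻¹ := by
      rw [← h4]
      refine sum_bij' (fun k _ => M - k) (fun k _ => M - k) ?_ ?_ ?_ ?_ ?_
      · intro k hk
        rw [mem_Ico] at hk ⊢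
        omega
      · intro k hk
        rw [mem_Ico] at hk ⊢
        omega
      · intro k hk
        rw [mem_Ico] at hk
        omega
      · intro k hk
        rw [mem_Ico] at hk
        omega
      · intro k hk
        rfl
    rw [h4, h5]
    ring
  have h4 : ∑ k ∈ range (2 * n), ((k + 1 : ℕ) : ℝ)⁻¹ ≤ 1 + Real.log ((2 * n : ℕ) : ℝ) := by
    have h5 := harmonic_le_one_add_log (2 * n)
    refine le_trans (le_of_eq ?_) h5
    unfold harmonic
    push_cast
    rfl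
  have h5 : Real.log ((2 * n : ℕ) : ℝ) ≤ 1 + Real.log n := by
    have hn0 : (n : ℝ) ≠ 0 := by exact_mod_cast (by omega : n ≠ 0)
    push_cast
    rw [Real.log_mul (by norm_num) hn0]
    have := Real.log_two_lt_d9
    linarith
  have h6 := sum_le_sum h2
  rw [h3] at h6
  linarith

/-- Indicators of intervals. -/
theorem Rep.interval (n : ℕ) (hn : 1 ≤ n) (u v : ℤ) : Rep n (3 + Real.log n) (fun m => if u ≤ m ∧ m < v then 1 else 0) := by
  set M : ℕ := 2 * n + 1 with hM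
  have hM1 : (M : ℂ) ≠ 0 := by exact_mod_cast (by omega : M ≠ 0)
  have hM2 : (M : ℝ) ≠ 0 := by exact_mod_cast (by omega : M ≠ 0)
  set a : ℕ := u.toNat with ha
  set b : ℕ := min v.toNat M with hb
  refine ⟨M, fun k => (1 / (M : ℂ)) * ∑ s ∈ Ico a b, Pool.Agent.H44W.ee (-((k : ℝ) * (s : ℝ) / M)), fun k => (k : ℝ) / M, sum_coeff_le n a b hn (min_le_right _ _), ?_⟩
  intro m hm1 hm2
  dsimp only
  have h1 : ∀ k ∈ range M, (1 / (M : ℂ)) * (∑ s ∈ Ico a b, Pool.Agent.H44W.ee (-((k : ℝ) * (s : ℝ) / M))) * Pool.Agent.H44W.ee ((k : ℝ) / M * m) =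
      ∑ s ∈ Ico a b, (1 / (M : ℂ)) * Pool.Agent.H44W.ee ((k : ℝ) * ((m - (s : ℤ) : ℤ) : ℝ) / M) := by
    intro k _
    rw [mul_sum, sum_mul]
    refine sum_congr rfl fun s _ => ?_
    rw [mul_assoc, ← ee_add]
    congr 2
    push_cast
    ring
  rw [sum_congr rfl h1, sum_comm]
  have h2 : ∀ s ∈ Ico a b, ∑ k ∈ range M, (1 / (M : ℂ)) * Pool.Agent.H44W.ee ((k : ℝ) * ((m - (s : ℤ) : ℤ) : ℝ) / M) = if (s : ℤ) = m then 1 else 0 := by
    intro s hs
    rw [mem_Ico] at hs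
    have hsM : s < M := lt_of_lt_of_le hs.2 (min_le_right _ _)
    rw [← mul_sum, ee_orth M (by omega)]
    by_cases h : (s : ℤ) = m
    · rw [if_pos h, if_pos (by rw [h, sub_self]; exact dvd_zero _), one_div_mul_cancel hM1]
    · rw [if_neg h, if_neg, mul_zero]
      intro h3
      apply h
      have h4 : m - (s : ℤ) = 0 := Int.eq_zero_of_abs_lt_dvd h3 (by rw [abs_lt]; constructor <;> omega)
      omega
  rw [sum_congr rfl h2]
  by_cases h : u ≤ m ∧ m < v
  · rw [if_pos h, Finset.sum_eq_single m.toNat]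
    · rw [if_pos (by omega)]
    · intro s _ hs
      rw [if_neg]
      omega
    · intro hs
      exfalso
      apply hs
      rw [mem_Ico, ha, hb]
      constructor
      · omega
      · rw [lt_min_iff]
        omega
  · rw [if_neg h, Finset.sum_eq_zero]
    intro s hs
    rw [mem_Ico, ha, hb, lt_min_iff] at hs
    rw [if_neg]
    intro h3
    apply h
    omega

/-- Functions of bounded variation. -/
theorem Rep.bv (n : ℕ) (hn : 1 ≤ n) (F : ℤ → ℂ) :
    Rep n (‖F 2‖ + (3 + Real.log n) * ∑ j ∈ range (2 * n), ‖F ((j : ℤ) + 3) - F ((j : ℤ) + 2)‖) F := by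
  have h1 := Rep.sum (n := n) (range (2 * n)) (fun j => ‖F ((j : ℤ) + 3) - F ((j : ℤ) + 2)‖ * (3 + Real.log n))
    (fun j m => (F ((j : ℤ) + 3) - F ((j : ℤ) + 2)) * (if ((j : ℤ) + 3) ≤ m ∧ m < 2 * n + 1 then 1 else 0))
    fun j _ => (Rep.interval n hn ((j : ℤ) + 3) (2 * n + 1)).smul _
  have h2 := (Rep.const n (F 2)).add h1
  rw [← sum_mul, mul_comm (∑ j ∈ range (2 * n), ‖F ((j : ℤ) + 3) - F ((j : ℤ) + 2)‖)] at h2
  refine h2.congr fun m hm1 hm2 => ?_
  obtain ⟨d, rfl⟩ : ∃ d : ℕ, m = d + 2 := ⟨(m - 2).toNat, by omega⟩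
  have hd : d ≤ 2 * n := by omega
  have h3 : ∑ j ∈ range (2 * n), (F ((j : ℤ) + 3) - F ((j : ℤ) + 2)) * (if ((j : ℤ) + 3) ≤ (d : ℤ) + 2 ∧ (d : ℤ) + 2 < 2 * n + 1 then (1 : ℂ) else 0) =
      ∑ j ∈ range d, (F ((j : ℤ) + 3) - F ((j : ℤ) + 2)) := by
    rw [← sum_subset (range_subset_range.2 hd)]
    · refine sum_congr rfl fun j hj => ?_
      rw [mem_range] at hj
      rw [if_pos, mul_one]
      omega
    · intro j _ hj
      rw [mem_range] at hj
      rw [if_neg, mul_zero]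
      omega
  rw [h3]
  have h4 : ∑ j ∈ range d, (F ((j : ℤ) + 3) - F ((j : ℤ) + 2)) = F ((d : ℤ) + 2) - F 2 := by
    have h5 := Finset.sum_range_sub (fun j : ℕ => F ((j : ℤ) + 2)) d
    simp only [Nat.cast_zero, zero_add] at h5
    rw [← h5]
    refine sum_congr rfl fun j _ => ?_
    rw [show (((j + 1 : ℕ) : ℤ) + 2) = (j : ℤ) + 3 by push_cast; ring]
  rw [h4]
  ring

end Pool.Agent.H81E
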